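import Mathlib
import Pool.Agent.L5helper18.TP.Asym
import Pool.Agent.L5helper18.TP.Upper

/-!
# The exponent of randomised programs over (min, +) for weighted k-SAT tends to one
-/

namespace Pool.Agent.Results.MP_0e79d0_lc.PureDynamicProgramExponent

open scoped NNReal
open Pool.Agent.L5helper18.TP

/-- For large `k`, randomised straight-line programs over `(min, +)` which compute, up to a factor `r < 2` and with
one-sided error, the least weight of the `k`-clauses falsified by an assignment need `2 ^ ((1 - ε) n)` expected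
additions; `2 ^ n * n.choose k` additions suffice for the exact value. -/
theorem result :
    (∀ r : ℝ≥0, r < 2 → ∀ ε : ℝ, 0 < ε → ∃ k₀ : ℕ, ∀ k ≥ k₀, ∃ n₀ : ℕ, ∀ n ≥ n₀,
      ∀ (p : PMF (Program n k)) (q : ℝ≥0), RandApprox p r q →
        ENNReal.ofReal (q * (2 : ℝ) ^ ((1 - ε) * n)) ≤ expAdds p) ∧
    ∀ n k : ℕ, ∃ Q : Program n k, Q.adds = 2 ^ n * n.choose k ∧
      ∀ w : Clause n k → ℕ, Q.out w = opt (fun C => (w C : ℝ≥0)) := by
  refine ⟨fun r hr ε hε => lower_seth r hr ε hε, fun n k => ?_⟩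
  obtain ⟨s, P, a, h1, h2⟩ := upper n k
  exact ⟨⟨s, P, a⟩, h1, fun w => h2 _⟩

end Pool.Agent.Results.MP_0e79d0_lc.PureDynamicProgramExponent
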