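import Mathlib
import Pool.Agent.L5helper18.TP.Asym

/-!
# Randomised programs over (min, +) for weighted k-SAT need exponentially many additions
-/

namespace Pool.Agent.L5helper18.Retired.PureDynamicPrograms

open scoped NNReal
open Pool.Agent.L5helper18.TP

/-- Randomised straight-line programs over `(min, +)` which compute, up to a factor `r < 2` and with one-sided error,
the least weight of the clauses falsified by an assignment need an exponential expected number of additions; the least
weight is zero exactly when the clauses of nonzero weight are satisfiable. -/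
theorem result :
    (∀ k : ℕ, 2 ≤ k → ∀ r : ℝ≥0, r < 2 → ∃ n₀ : ℕ, ∀ n ≥ n₀, ∀ (p : PMF (Program n k)) (q : ℝ≥0), RandApprox p r q →
      ENNReal.ofReal (q * Real.exp (((2 - (r : ℝ)) / 6) ^ (2 / (k : ℝ)) / 2 * n)) ≤ expAdds p) ∧
    ∀ (n k : ℕ) (w : Clause n k → ℝ≥0),
      opt w = 0 ↔ ∃ A : Fin n → Bool, ∀ C : Clause n k, Falsifies A C → w C = 0 :=
  ⟨fun k hk r hr => lower_eth k hk r hr, fun _ _ w => opt_eq_zero w⟩

end Pool.Agent.L5helper18.Retired.PureDynamicPrograms
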